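import Mathlib

set_option autoImplicit false

namespace Pool.Agent.Results.MP_bc88c0_gt.Regular

open Set Cardinal Topology

theorem result (X G : Type) [TopologicalSpace X] [Nontrivial X] [CommGroup G] (f : G → X)
    (hreg : (#G).IsRegular) (hunc : ℵ₀ < #G)
    (hK : ∀ M : Set G, #M < #G → ∀ t : G → X, ∃ g : G, ∀ x ∈ M, f (x * g) = t x) :
    ¬ (T1Space (range fun (g x : G) => f (x * g)) ∧
      NormalSpace (range fun (g x : G) => f (x * g))) := by
  classical
  rintro ⟨hT, hN⟩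
  obtain ⟨_, _, hα⟩ := exists_ord_eq_type_lt G
  have hIic : ∀ i : G, #(Iic i) < #G := fun i => mk_Iic_lt i hα hunc.le
  have hins : ∀ (S : Set G) (a : G), #S < #G → #(insert a S : Set G) < #G := fun S a h =>
    mk_insert_le.trans_lt (add_one_lt_of_lt hunc.le h)
  have hfin : ∀ S : Set G, S.Finite → #S < #G := fun S h => h.lt_aleph0.trans hunc
  have hun : ∀ S T : Set G, #S < #G → #T < #G → #(S ∪ T : Set G) < #G := fun S T h1 h2 =>
    (mk_union_le S T).trans_lt (add_lt_of_lt hunc.le h1 h2)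
  have hbd : ∀ c : ℕ → G, ∃ b, ∀ n, c n < b := fun c => by
    have h1 : #(⋃ n, Iic (c n) : Set G) < #G :=
      (card_iUnion_lt_iff_forall_of_isRegular hreg (by simpa using hunc)).2 fun n => hIic _
    have h2 : (⋃ n, Iic (c n) : Set G) ≠ Set.univ := fun e => by
      rw [e, mk_univ] at h1; exact lt_irrefl _ h1
    obtain ⟨b, hb⟩ := (ne_univ_iff_exists_notMem _).1 h2
    exact ⟨b, fun n => lt_of_not_ge fun h => hb (mem_iUnion.2 ⟨n, h⟩)⟩
  have hbf : ∀ (S : Finset G) (a : G), ∃ b, a < b ∧ ∀ x ∈ S, x < b := fun S a => by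
    obtain ⟨b, hb⟩ := hbd fun _ => (insert a S).max' (Finset.insert_nonempty a S)
    exact ⟨b, (Finset.le_max' _ _ (Finset.mem_insert_self a S)).trans_lt (hb 0),
      fun x hx => (Finset.le_max' _ _ (Finset.mem_insert_of_mem hx)).trans_lt (hb 0)⟩
  let o : G → G → X := fun g x => f (x * g)
  let pt : G → range o := fun g => ⟨o g, g, rfl⟩
  obtain ⟨W, u0, u1, hW, h0, h1⟩ : ∃ (W : Set X) (u0 u1 : X), IsOpen W ∧ u0 ∉ W ∧ u1 ∈ W := by
    by_contra hc
    push Not at hc
    have hi : ∀ a b : X, Inseparable a b := fun a b =>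
      inseparable_iff_forall_isOpen.2 fun s hs =>
        ⟨fun ha => by_contra fun hb => hc s b a hs hb ha, fun hb => by_contra fun ha => hc s a b hs ha hb⟩
    obtain ⟨a, b, hab⟩ := exists_pair_ne X
    obtain ⟨g, hg⟩ := hK {1} (hfin _ (finite_singleton 1)) fun _ => a
    obtain ⟨h, hh⟩ := hK {1} (hfin _ (finite_singleton 1)) fun _ => b
    have h3 : Inseparable (pt g) (pt h) :=
      (subtype_inseparable_iff _ _).2 (inseparable_pi.2 fun x => hi _ _)
    have h4 := congrFun (congrArg Subtype.val h3.eq) 1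
    exact hab ((hg 1 rfl).symm.trans (h4.trans (hh 1 rfl)))
  have hne : u0 ≠ u1 := fun e => h0 (e ▸ h1)
  choose s hs using fun a : G => hbd fun _ => a
  have hs' : ∀ a, a < s a := fun a => hs a 0
  have hex : ∀ (v : X) (a : G), ∃ g : G, (∀ x < a, f (x * g) = u0) ∧ f (a * g) = u1 ∧
      f (s a * g) = v := fun v a => by
    obtain ⟨g, hg⟩ := hK (insert (s a) (Iic a)) (hins _ _ (hIic a))
      fun x => if x < a then u0 else if x = a then u1 else v
    refine ⟨g, fun x hx => ?_, ?_, ?_⟩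
    · rw [hg x (Or.inr hx.le), if_pos hx]
    · rw [hg a (Or.inr le_rfl), if_neg (lt_irrefl a), if_pos rfl]
    · rw [hg _ (Or.inl rfl), if_neg (hs' a).not_gt, if_neg (hs' a).ne']
  choose c c1 c2 c3 using hex
  have hcl : ∀ v, IsClosed (range fun a => pt (c v a)) := fun v => by
    rw [← isOpen_compl_iff, isOpen_iff_forall_mem_open]
    rintro ⟨_, g, rfl⟩ hg
    have hg' : ∀ a, c v a ≠ g := fun a e => hg ⟨a, congrArg pt e⟩
    obtain ⟨x, hx⟩ := hK {g} (hfin _ (finite_singleton g)) fun _ => u1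
    obtain ⟨y, hy⟩ := hK (insert g (c v '' Iic x)) (hins _ _ (mk_image_le.trans_lt (hIic x)))
      fun z => if z = g then u1 else u0
    refine ⟨{z | z.1 x ∈ W} ∩ {z | z.1 y ∈ W}, ?_, ?_, ?_, ?_⟩
    · rintro _ ⟨a1, a2⟩ ⟨a, rfl⟩
      by_cases hxa : x < a
      · exact h0 (c1 v a x hxa ▸ a1)
      · have := hy (c v a) (Or.inr ⟨a, not_lt.1 hxa, rfl⟩)
        rw [if_neg (hg' a), mul_comm] at this
        exact h0 (this ▸ a2)
    · exact (hW.preimage ((continuous_apply x).comp continuous_subtype_val)).inter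
        (hW.preimage ((continuous_apply y).comp continuous_subtype_val))
    · change f (x * g) ∈ W
      rw [mul_comm, hx g rfl]; exact h1
    · change f (y * g) ∈ W
      rw [mul_comm, hy g (Or.inl rfl), if_pos rfl]; exact h1
  have hdis : Disjoint (range fun a => pt (c u0 a)) (range fun a => pt (c u1 a)) := by
    rw [Set.disjoint_left]
    rintro _ ⟨a, rfl⟩ ⟨b, hb⟩
    have e : ∀ x, f (x * c u1 b) = f (x * c u0 a) := fun x => congrFun (congrArg Subtype.val hb) x
    rcases lt_trichotomy a b with h | h | h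
    · exact hne ((c1 u1 b a h).symm.trans ((e a).trans (c2 u0 a)))
    · subst h; exact hne ((c3 u0 a).symm.trans ((e _).symm.trans (c3 u1 a)))
    · exact hne ((c1 u0 a b h).symm.trans ((e b).symm.trans (c2 u1 b)))
  obtain ⟨U, V, hU, hV, hAU, hBV, hUV⟩ := hN.normal _ _ (hcl u0) (hcl u1) hdis
  have cyl : ∀ U : Set (range o), IsOpen U → ∀ y ∈ U, ∃ I : Finset G,
      ∀ z : range o, (∀ i ∈ I, z.1 i = y.1 i) → z ∈ U := fun U hU y hy => by
    obtain ⟨U', hU', rfl⟩ := isOpen_induced_iff.1 hU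
    obtain ⟨I, u, hu1, hu2⟩ := isOpen_pi_iff.1 hU' y.1 hy
    exact ⟨I, fun z hz => hu2 fun i hi => (hz i hi).symm ▸ (hu1 i hi).2⟩
  choose F hF using fun a => cyl U hU (pt (c u0 a)) (hAU ⟨a, rfl⟩)
  choose nx n1 n2 using fun a => hbf (F a) a
  let q : ℕ → G := fun n => nx^[n] 1
  have hq : ∀ n, q (n + 1) = nx (q n) := fun n => Function.iterate_succ_apply' nx n 1
  have hmono : StrictMono q := strictMono_nat_of_lt_succ fun n => by rw [hq]; exact n1 _
  obtain ⟨b, hb⟩ := hbd q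
  obtain ⟨I, hI⟩ := cyl V hV (pt (c u1 b)) (hBV ⟨b, rfl⟩)
  obtain ⟨n, hn⟩ : ∃ n, ∀ x ∈ F (q n), x ∈ I → x < q n := by
    by_contra hc
    push Not at hc
    choose w w1 w2 w3 using hc
    have hw : StrictMono w := strictMono_nat_of_lt_succ fun n =>
      ((hq n).symm ▸ n2 _ _ (w1 n) : w n < q (n + 1)).trans_le (w3 (n + 1))
    exact Set.infinite_of_injective_forall_mem hw.injective (s := (I : Set G)) w2 I.finite_toSet
  obtain ⟨g, hg⟩ := hK ((F (q n) : Set G) ∪ I) (hun _ _ (hfin _ (Finset.finite_toSet _))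
    (hfin _ (Finset.finite_toSet _)))
    fun x => if x ∈ F (q n) then f (x * c u0 (q n)) else f (x * c u1 b)
  refine Set.disjoint_left.1 hUV (hF (q n) (pt g) fun i hi => ?_) (hI (pt g) fun i hi => ?_)
  · change f (i * g) = f (i * c u0 (q n))
    rw [hg i (Or.inl hi), if_pos hi]
  · change f (i * g) = f (i * c u1 b)
    rw [hg i (Or.inr hi)]
    split_ifs with h
    · rw [c1 u0 _ i (hn i h hi), c1 u1 b i ((hn i h hi).trans (hb n))]
    · rfl

end Pool.Agent.Results.MP_bc88c0_gt.Regular
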